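import Pool.Agent.MP_c69980_ag.H43.Spec6

/-!
A vector field on a curve that is regular and nonvanishing outside a finite set of places.
-/

set_option autoImplicit false

namespace Pool.Agent.MP_c69980_ag.H43

open Pool.Agent.MP_f3836a_nt.PK H60 Polynomial IntermediateField

variable {L : Type} [Field L] [Algebra ℂ L]

lemma Cd_lt (h : FFd L) (P : Pl L) (x : L) : P.V.valuation x < 1 ↔ x = 0 ∨ 0 < P.ord x := by
  rw [← ValuationSubring.mem_nonunits_iff, ← h.a.zero]
  rfl

lemma Cd_mem (h : FFd L) (P : Pl L) {x : L} (hx : 0 ≤ P.ord x) : x ∈ P.V := by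
  by_cases e : x = 0
  · exact e ▸ zero_mem _
  · exact (h.a.mem P x e).2 hx

lemma Cd_one (h : FFd L) (P : Pl L) (x : L) : P.V.valuation x = 1 ↔ x ≠ 0 ∧ P.ord x = 0 := by
  constructor
  · intro e
    have x0 : x ≠ 0 := fun e' => by simp [e'] at e
    have h1 := (h.a.mem P x x0).1 ((P.V.valuation_le_one_iff x).1 e.le)
    have h2 : ¬ (x = 0 ∨ 0 < P.ord x) := fun k => ((Cd_lt h P x).2 k).ne e
    push Not at h2
    exact ⟨x0, le_antisymm h2.2 h1⟩
  · rintro ⟨x0, e⟩
    refine le_antisymm ((P.V.valuation_le_one_iff x).2 (Cd_mem h P e.ge)) (not_lt.1 fun k => ?_)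
    rcases (Cd_lt h P x).1 k with k | k
    · exact x0 k
    · omega

lemma Cd_tr (h : FFd L) (P : Pl L) {x : L} (hx : P.ord x ≠ 0) : Transcendental ℂ x := by
  rcases PlB.const_or (k := ℂ) x with ⟨a, rfl⟩ | k
  · exact absurd (h.a.con P a) hx
  · exact k

lemma Cd_tb (h : FFd L) {T : L} (hT : Transcendental ℂ T) :
    IsTranscendenceBasis ℂ (fun _ : Unit => T) := by
  have h1 : AlgebraicIndependent ℂ (fun _ : Unit => T) := algebraicIndependent_unique_type_iff.2 hT
  rw [h1.isTranscendenceBasis_iff_isAlgebraic, Set.range_const, ← isAlgebraic_adjoin_iff_top]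
  have := h.b.fd T hT
  infer_instance

lemma Cd_ex (h : FFd L) {T : L} (hT : Transcendental ℂ T) : ∃ E : Derivation ℂ L L, E T = 1 := by
  obtain ⟨E, hE⟩ := der_exists (M := L) (Cd_tb h hT) fun _ => 1
  exact ⟨E, hE ()⟩

lemma Cd_ext (h : FFd L) {T : L} (hT : Transcendental ℂ T) {E : Derivation ℂ L L} (hE : E T = 1)
    (D : Derivation ℂ L L) (x : L) : D x = D T * E x := by
  have : D = D T • E := der_ext (Cd_tb h hT) fun _ => by simp [hE]
  conv_lhs => rw [this]
  rfl

/-- `d/dT` preserves the local rings where `T` is a uniformiser, and almost all local rings. -/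
lemma Cd_main (h : FFd L) {T : L} (hT : Transcendental ℂ T) {E : Derivation ℂ L L}
    (hE : E T = 1) : (∀ P : Pl L, P.ord T = 1 → ∀ g ∈ P.V, E g ∈ P.V) ∧
      {P : Pl L | ¬ ∀ g ∈ P.V, E g ∈ P.V}.Finite := by
  classical
  let K := adjoin ℂ {T}
  have hfd : FiniteDimensional K L := h.b.fd T hT
  let _ : Algebra ℂ[X] L := (aeval T : ℂ[X] →ₐ[ℂ] L).toRingHom.toAlgebra
  let _ : Algebra ℂ[X] K := (aeval (AdjoinSimple.gen ℂ T) : ℂ[X] →ₐ[ℂ] K).toRingHom.toAlgebra
  have hF : ∀ q : ℂ[X], algebraMap ℂ[X] L q = aeval T q := fun _ => rfl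
  have _ : IsScalarTower ℂ[X] K L := .of_algebraMap_eq fun q =>
    (aeval_algebraMap_apply L (AdjoinSimple.gen ℂ T) q)
  have hinj : Function.Injective (algebraMap ℂ[X] L) := transcendental_iff_injective.1 hT
  have _ : FaithfulSMul ℂ[X] K := (faithfulSMul_iff_algebraMap_injective _ _).2
    (Function.Injective.of_comp (f := algebraMap K L) (by
      rwa [IsScalarTower.algebraMap_eq ℂ[X] K L] at hinj))
  have _ : IsFractionRing ℂ[X] K := IsFractionRing.of_field _ _ fun z => by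
    obtain ⟨r, s, h⟩ := (mem_adjoin_simple_iff ℂ z.1).1 z.2
    refine ⟨r, s, (algebraMap K L).injective ?_⟩
    rw [map_div₀, ← IsScalarTower.algebraMap_apply, ← IsScalarTower.algebraMap_apply]
    exact h
  have hq : ∀ P : Pl L, T ∈ P.V → ∀ q : ℂ[X], algebraMap ℂ[X] L q ∈ P.V := fun P hP q =>
    aeval_val (R := ℂ) P.V P.const hP q
  have hEq : ∀ P : Pl L, T ∈ P.V → ∀ q : ℂ[X], E (algebraMap ℂ[X] L q) ∈ P.V := fun P hP q => by
    rw [hF, E.map_aeval, hE, smul_eq_mul, mul_one]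
    exact hq P hP _
  have hP : ∀ P : Pl L, T ∈ P.V → ∀ g : L, ∃ Q : ℂ[X][X], aeval g Q = 0 ∧
      ∃ i, P.V.valuation (algebraMap ℂ[X] L (Q.coeff i)) = 1 := by
    intro P hTP g
    have hp : Prime (X - C (P.val T) : ℂ[X]) := prime_X_sub_C _
    have hv : P.V.valuation (T - algebraMap ℂ L (P.val T)) < 1 :=
      (Cd_lt h P _).2 ((h.a.val P T hTP _).2 rfl)
    obtain ⟨Q', p0, p1⟩ := (IsFractionRing.isAlgebraic_iff ℂ[X] K L).2
      (Algebra.IsAlgebraic.isAlgebraic g)
    obtain ⟨e, Q, q1, rfl⟩ := WfDvdMonoid.max_power_factor' p0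
      (x := C (X - C (P.val T) : ℂ[X])) (by rw [isUnit_C]; exact hp.not_isUnit)
    rw [C_dvd_iff_dvd_coeff] at q1
    push Not at q1
    obtain ⟨i, hi⟩ := q1
    refine ⟨Q, ?_, i, ?_⟩
    · rw [map_mul, map_pow, aeval_C] at p1
      exact (mul_eq_zero.1 p1).resolve_left
        (pow_ne_zero _ ((map_ne_zero_iff _ hinj).2 hp.ne_zero))
    · rw [dvd_iff_isRoot] at hi
      have e1 := modByMonic_add_div (Q.coeff i) (X - C (P.val T))
      rw [modByMonic_X_sub_C_eq_C_eval] at e1
      have v1 : P.V.valuation (algebraMap ℂ[X] L (C (eval (P.val T) (Q.coeff i)))) = 1 := by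
        rw [hF, aeval_C]
        exact val_c P.V P.const hi
      rw [← e1, map_add, P.V.valuation.map_add_eq_of_lt_left, v1]
      rw [v1, map_mul, map_mul]
      refine mul_lt_one_of_lt_of_le ?_ ((P.V.valuation_le_one_iff _).2 (hq P hTP _))
      rw [hF, map_sub, aeval_X, aeval_C]
      exact hv
  constructor
  · intro P h1
    have hTP : T ∈ P.V := Cd_mem h P (by omega)
    have T0 : T ≠ 0 := PlB.tr_ne hT
    refine tame P.V K (R := ℂ[X]) (hq P hTP) P.const E (hEq P hTP) (hP P hTP)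
      (hm_unram P.V E (p := T) ((Cd_lt h P T).2 (Or.inr (by omega))) (hE ▸ one_mem _)
        fun g hg => ?_)
    rcases (Cd_lt h P g).1 hg with rfl | k
    · simp
    have g0 : g ≠ 0 := fun e => by simp [e, PlB.ord_zero] at k
    have h2 : g * T⁻¹ ∈ P.V := Cd_mem h P (by
      rw [h.a.mul P g _ g0 (inv_ne_zero T0), h.ord_inv]; omega)
    rw [← P.V.valuation_le_one_iff, map_mul, map_inv₀, mul_inv_le_iff₀ (by
      simpa [zero_lt_iff] using T0), one_mul] at h2
    exact h2
  · have : CharZero L := charZero_of_injective_algebraMap (algebraMap ℂ L).injective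
    have : CharZero K := RingHom.charZero_iff (algebraMap K L).injective |>.2 this
    obtain ⟨s, hs⟩ := (IsIntegralClosure.finite ℂ[X] K L (integralClosure ℂ[X] L)).fg_top
    refine ((h.b.fin T).union (s.finite_toSet.biUnion fun b _ => h.b.fin (E b))).subset ?_
    intro P hP'
    by_contra hn
    simp only [Set.mem_union, Set.mem_ofPred_eq, Set.mem_iUnion, not_or, not_exists, not_not,
      Finset.mem_coe] at hn
    have hTP : T ∈ P.V := Cd_mem h P hn.1.ge
    refine hP' fun g hg => ?_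
    have h1 : ∀ b : integralClosure ℂ[X] L, E b ∈ P.V := fun b => by
      have hb : b ∈ Submodule.span ℂ[X] (s : Set (integralClosure ℂ[X] L)) := hs ▸ trivial
      induction hb using Submodule.span_induction with
      | mem x hx => exact Cd_mem h P (hn.2 x hx).ge
      | zero => simp
      | add a b _ _ ha hb => rw [Subalgebra.coe_add, map_add]; exact add_mem ha hb
      | smul r a _ ha =>
        rw [Subalgebra.coe_smul, Algebra.smul_def, E.leibniz, smul_eq_mul, smul_eq_mul]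
        exact add_mem (mul_mem (hq P hTP r) ha)
          (mul_mem (val_int P.V (hq P hTP) a.2) (hEq P hTP r))
    obtain ⟨Q, p1, p2⟩ := hP P hTP g
    obtain ⟨t, t1, t2, t3⟩ := loc_val P.V (hq P hTP) hg p1 p2
    have h2 := sub_mem (h1 ⟨_, t2⟩) (mul_mem hg (h1 ⟨_, t1⟩))
    rw [E.leibniz, smul_eq_mul, smul_eq_mul, add_sub_cancel_right, ← P.V.valuation_le_one_iff,
      map_mul, t3, one_mul] at h2
    exact (P.V.valuation_le_one_iff _).1 h2

/-- The order of a derivative with respect to a uniformiser. -/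
lemma Cd_ord (h : FFd L) (P : Pl L) {π : L} (hπ : P.ord π = 1) {E : Derivation ℂ L L}
    (hE : E π = 1) {x : L} (hx : P.ord x ≠ 0) : E x ≠ 0 ∧ P.ord (E x) = P.ord x - 1 := by
  have hT := Cd_tr h P (x := π) (by omega)
  have π0 : π ≠ 0 := PlB.tr_ne hT
  have x0 : x ≠ 0 := PlB.tr_ne (Cd_tr h P hx)
  set n := P.ord x with hn
  set u := x * π ^ (-n) with hu
  have u0 : u ≠ 0 := mul_ne_zero x0 (zpow_ne_zero _ π0)
  have u1 : P.ord u = 0 := by
    rw [hu, h.a.mul P _ _ x0 (zpow_ne_zero _ π0), Deg.ord_zpow h.a P π0, hπ]; omega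
  have e : x = u * π ^ n := by
    rw [hu, mul_assoc, ← zpow_add₀ π0, neg_add_cancel, zpow_zero, mul_one]
  have hEu : E u ∈ P.V := (Cd_main h hT hE).1 P hπ u (Cd_mem h P u1.ge)
  have e2 : E x = π ^ (n - 1) * (algebraMap ℂ L n * u + π * E u) := by
    conv_lhs => rw [e]
    rw [E.leibniz, E.leibniz_zpow, hE, map_intCast, zpow_sub_one₀ π0]
    simp only [smul_eq_mul, zsmul_eq_mul]
    field_simp
  have v1 : P.V.valuation (algebraMap ℂ L n * u) = 1 := by
    rw [map_mul, val_c P.V P.const (Int.cast_ne_zero.2 hx), (Cd_one h P u).2 ⟨u0, u1⟩, one_mul]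
  have v2 : P.V.valuation (algebraMap ℂ L n * u + π * E u) = 1 := by
    rw [P.V.valuation.map_add_eq_of_lt_left, v1]
    rw [v1, map_mul]
    exact mul_lt_one_of_lt_of_le ((Cd_lt h P π).2 (Or.inr (by omega)))
      ((P.V.valuation_le_one_iff _).2 hEu)
  obtain ⟨w0, w1⟩ := (Cd_one h P _).1 v2
  refine ⟨e2 ▸ mul_ne_zero (zpow_ne_zero _ π0) w0, ?_⟩
  rw [e2, h.a.mul P _ _ (zpow_ne_zero _ π0) w0, w1, Deg.ord_zpow h.a P π0, hπ]
  omega

theorem sCd : SCd := by
  intro L _ _ h S₀ P₀ hP₀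
  classical
  choose π π0 hπ using h.a.uni
  have hT : ∀ P, Transcendental ℂ (π P) := fun P => Cd_tr h P (by rw [hπ]; omega)
  choose E hE using fun P => Cd_ex h (hT P)
  set s := π P₀ with hs
  set D := E P₀ with hD
  have hDs : D s = 1 := hE P₀
  have hDT : ∀ T, Transcendental ℂ T → D T ≠ 0 := fun T k e => by
    obtain ⟨E', hE'⟩ := Cd_ex h k
    have := Cd_ext h k hE' D s
    rw [e, zero_mul, hDs] at this
    exact one_ne_zero this
  let m : Pl L → ℤ := fun P => 1 - P.ord (D (π P))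
  have hord : ∀ (P : Pl L) x, P.ord x ≠ 0 → D x ≠ 0 ∧ P.ord (D x) = P.ord x - m P := by
    intro P x hx
    obtain ⟨a, b⟩ := Cd_ord h P (hπ P) (hE P) hx
    refine ⟨hDT x (Cd_tr h P hx), ?_⟩
    rw [Cd_ext h (hT P) (hE P) D x, h.a.mul P _ _ (hDT _ (hT P)) a, b]
    simp only [m]
    omega
  have hreg : ∀ P : Pl L, ∀ x ∈ P.V, D x = 0 ∨ 1 - m P ≤ P.ord (D x) := by
    intro P x hx
    have a := (Cd_main h (hT P) (hE P)).1 P (hπ P) x hx
    rw [Cd_ext h (hT P) (hE P) D x]
    by_cases e : E P x = 0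
    · exact Or.inl (by rw [e, mul_zero])
    · have := (h.a.mem P _ e).1 a
      refine Or.inr ?_
      rw [h.a.mul P _ _ (hDT _ (hT P)) e]
      simp only [m]
      omega
  have hfin : {P | m P ≠ 1}.Finite := by
    refine ((h.b.fin s).union (Cd_main h (hT P₀) hDs).2).subset fun P hP => ?_
    by_contra hn
    simp only [Set.mem_union, Set.mem_ofPred_eq, not_or, not_not] at hn
    have a := (h.a.mem P _ (hDT _ (hT P))).1 (hn.2 _ (Cd_mem h P (by rw [hπ]; omega)))
    have b := hreg P s (Cd_mem h P hn.1.ge)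
    rw [hDs, PlB.ord_one h.a] at b
    have c := b.resolve_left one_ne_zero
    apply hP
    simp only [m] at c ⊢
    omega
  have h0 : m P₀ = 1 := by
    simp only [m]
    rw [← hs, hDs, PlB.ord_one h.a, sub_zero]
  let S := S₀ ∪ hfin.toFinset
  have hS : ∀ P ∉ S, m P = 1 := fun P hP => by
    by_contra e
    exact hP (Finset.mem_union_right _ (hfin.mem_toFinset.2 e))
  refine ⟨D, S, m, S.card + (∑ P ∈ S, (m P).toNat + 1), ⟨h, ⟨s, hDs⟩, fun x hx => ?_, hord, hreg,
    hS, fun P => ?_, Nat.le_add_right _ _⟩, Finset.subset_union_left, ?_⟩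
  · exact (PlB.const_or (k := ℂ) x).resolve_right fun k => hDT x k hx
  · by_cases e : P ∈ S
    · have := Finset.single_le_sum (f := fun P => (m P).toNat) (fun _ _ => Nat.zero_le _) e
      omega
    · rw [hS P e]
      omega
  · simp only [S, Finset.mem_union, Set.Finite.mem_toFinset, Set.mem_ofPred_eq, not_or, not_not]
    exact ⟨hP₀, h0⟩

end Pool.Agent.MP_c69980_ag.H43
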