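import Pool.Agent.MP_c69980_ag.H43.Spec2

/-!
The invariant vector fields are polynomial in every chart.
-/

set_option autoImplicit false

namespace Pool.Agent.MP_c69980_ag.H43

open MvPolynomial H60 Finset Filter Topology

variable {t a M : ℕ} {w : Fin M → Option (Fin t)} {Θ : Pt t a → Fin M → ℂ} {β : Cht M t}

/-- First-order expansion of a polynomial along a curve in the second group of variables. -/
lemma der_jet (γ : ℂ → Fin M → ℂ) (γ' : Fin M → ℂ) (hγ : ∀ c, HasDerivAt (fun s => γ s c) (γ' c) 0)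
    (Q : MvPolynomial (Fin M ⊕ Fin M) ℂ) : ∃ Q₀ Q₁ : CP M t, ∀ y : CI M t → ℂ,
      eval y Q₀ = eval (Sum.elim (fun c => y (c, none)) (γ 0)) Q ∧
      HasDerivAt (fun s => eval (Sum.elim (fun c => y (c, none)) (γ s)) Q) (eval y Q₁) 0 := by
  induction Q using MvPolynomial.induction_on with
  | C c => exact ⟨C c, 0, fun y => ⟨by simp, by simpa using hasDerivAt_const (0 : ℂ) c⟩⟩
  | add p q hp hq =>
    obtain ⟨p₀, p₁, hp⟩ := hp
    obtain ⟨q₀, q₁, hq⟩ := hq
    refine ⟨p₀ + q₀, p₁ + q₁, fun y => ⟨by simp only [map_add, (hp y).1, (hq y).1], ?_⟩⟩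
    simp only [map_add]
    exact (hp y).2.add (hq y).2
  | mul_X p i hp =>
    obtain ⟨p₀, p₁, hp⟩ := hp
    rcases i with c | c
    · refine ⟨p₀ * X (c, none), p₁ * X (c, none), fun y => ⟨by simp [(hp y).1], ?_⟩⟩
      simp only [map_mul, eval_X, Sum.elim_inl]
      exact (hp y).2.mul_const _
    · refine ⟨p₀ * C (γ 0 c), p₁ * C (γ 0 c) + p₀ * C (γ' c), fun y => ⟨by simp [(hp y).1], ?_⟩⟩
      simp only [map_mul, map_add, eval_X, eval_C, Sum.elim_inr, (hp y).1]
      exact (hp y).2.mul (hγ c)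

lemma der_diff (hol : Differentiable ℂ Θ) {q : Pt t a} (h : Ch w β (Θ q)) (x : CI M t) :
    DifferentiableAt ℂ (fun q => co β (Θ q) x) q := by
  have d : ∀ c, DifferentiableAt ℂ (fun q => Θ q c) q := fun c => differentiableAt_pi.1 (hol q) c
  simp only [co, div_eq_mul_inv]
  exact (d _).mul ((d _).inv (h _).2)

lemma der_line {F : Pt t a → ℂ} {q : Pt t a} (v : Pt t a) (h : DifferentiableAt ℂ F q) :
    HasDerivAt (fun s : ℂ => F (q - s • -v)) (fderiv ℂ F q v) 0 := by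
  have h1 : HasDerivAt (fun s : ℂ => q - s • -v) v 0 := by
    simpa using ((hasDerivAt_id (0 : ℂ)).smul_const (-v)).const_sub q
  have h2 : HasFDerivAt F (fderiv ℂ F q) (q - (0 : ℂ) • -v) := by simpa using h.hasFDerivAt
  exact h2.comp_hasDerivAt (0 : ℂ) h1

/-- Near every point of the chart the vector field is a quotient of polynomials. -/
lemma der_loc (g : GA w Θ) (v : Pt t a) (x : CI M t) {p : Pt t a} (hp : Ch w β (Θ p)) :
    ∃ A B : CP M t, eval (co β (Θ p)) B ≠ 0 ∧ ∀ q, Ch w β (Θ q) →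
      eval (co β (Θ q)) B * fderiv ℂ (fun q => co β (Θ q) x) q v = eval (co β (Θ q)) A := by
  obtain ⟨s, h1, h2⟩ := g.sub
  obtain ⟨S, hS, c₁, hc₁⟩ := h2 p 0
  obtain ⟨⟨d, e, hom⟩, hsub⟩ := h1 S hS
  have hγ : ∀ c, HasDerivAt (fun s : ℂ => Θ (s • -v) c) (-fderiv ℂ (fun q => Θ q c) 0 v) 0 := by
    intro c
    have := der_line (-v) (differentiableAt_pi.1 (g.hol 0) c)
    simpa using this
  obtain ⟨A₀, A₁, hA⟩ := der_jet (t := t) _ _ hγ (S x.1)
  obtain ⟨B₀, B₁, hB⟩ := der_jet (t := t) _ _ hγ (S (β x.2))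
  have key : ∀ q r, ∃ l : ℂ, (∀ c, eval (Sum.elim (Θ q) (Θ r)) (S c) = l * Θ (q - r) c) ∧
      ∀ c, eval (Sum.elim (fun c => co β (Θ q) (c, none)) (Θ r)) (S c) =
        (Θ q (β none))⁻¹ ^ d * l * Θ (q - r) c := by
    intro q r
    obtain ⟨l, hl⟩ := hsub q r
    refine ⟨l, hl, fun c => ?_⟩
    have e1 : (fun c => co β (Θ q) (c, none)) = (Θ q (β none))⁻¹ • Θ q := by
      funext c
      simp [co, div_eq_inv_mul]
    have e2 := hom c (Θ q (β none))⁻¹ 1 (Θ q) (Θ r)
    rw [one_smul, one_pow, mul_one, hl] at e2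
    rw [e1, e2, mul_assoc]
  refine ⟨A₁ - B₁ * X x, B₀, ?_, fun q hq => ?_⟩
  · obtain ⟨l, a1, a2⟩ := key p 0
    rw [(hB _).1, zero_smul, a2, sub_zero]
    rw [a1] at hc₁
    exact mul_ne_zero (mul_ne_zero (pow_ne_zero _ (inv_ne_zero (hp none).2))
      (left_ne_zero_of_mul hc₁)) (hp _).2
  · have hF := der_line v (der_diff g.hol hq x)
    have hc := (der_line v (differentiableAt_pi.1 (g.hol q) (β x.2))).continuousAt
    have hne : ∀ᶠ s : ℂ in 𝓝 0, Θ (q - s • -v) (β x.2) ≠ 0 :=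
      hc.eventually_ne (by simpa using (hq x.2).2)
    have hev : (fun s : ℂ => eval (Sum.elim (fun c => co β (Θ q) (c, none)) (Θ (s • -v))) (S x.1))
        =ᶠ[𝓝 0] fun s : ℂ =>
          eval (Sum.elim (fun c => co β (Θ q) (c, none)) (Θ (s • -v))) (S (β x.2)) *
            co β (Θ (q - s • -v)) x := by
      filter_upwards [hne] with s hs
      obtain ⟨l, -, a2⟩ := key q (s • -v)
      rw [a2, a2, co, mul_assoc _ (Θ _ (β x.2)), mul_div_cancel₀ _ hs]
    have h3 := ((hB (co β (Θ q))).2.mul hF).congr_of_eventuallyEq hev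
    have h4 := (hA (co β (Θ q))).2.unique h3
    rw [← (hB (co β (Θ q))).1, zero_smul, sub_zero] at h4
    rw [map_sub, map_mul, eval_X, h4]
    ring

/-- The chart is closed. -/
lemma der_closed (g : GA w Θ) (hβ : ∀ o, w (β o) = o) {y : CI M t → ℂ}
    (hy : ∀ P : CP M t, (∀ q, Ch w β (Θ q) → eval (co β (Θ q)) P = 0) → eval y P = 0) :
    ∃ q, Ch w β (Θ q) ∧ co β (Θ q) = y := by
  refine g.cl.chart (fun o => ⟨hβ o, fun e => ?_⟩) (fun c o => ?_) fun F d a _ c => ?_
  · have := hy (X (β o, none) * X (β none, o) - 1) fun p hp => by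
      simp only [map_sub, map_mul, eval_X, map_one, co]
      rw [div_mul_div_cancel₀ (hp none).2, div_self (hp o).2, sub_self]
    simp [e] at this
  · have := hy (X (c, o) * X (β o, none) - X (c, none)) fun p hp => by
      simp only [map_sub, map_mul, eval_X, co]
      rw [div_mul_div_cancel₀ (hp o).2, sub_self]
    simpa [sub_eq_zero] using this
  · refine hy _ fun p _ => ?_
    have : eval _ (dh F) = eval (Θ p) F / _ := eval_dh (y := Θ p) a β
    rw [this, c, zero_div]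

/-- A function that is locally a quotient of polynomials on the chart is a polynomial. -/
lemma der_glue (g : GA w Θ) (β : Cht M t) (f : Pt t a → ℂ)
    (h : ∀ p, Ch w β (Θ p) → ∃ A B : CP M t, eval (co β (Θ p)) B ≠ 0 ∧ ∀ q, Ch w β (Θ q) →
      eval (co β (Θ q)) B * f q = eval (co β (Θ q)) A) :
    ∃ A : CP M t, ∀ q, Ch w β (Θ q) → f q = eval (co β (Θ q)) A := by
  by_cases hβ : ∀ o, w (β o) = o
  swap
  · exact ⟨0, fun q hq => absurd (fun o => (hq o).1) hβ⟩
  let K : Ideal (CP M t) :=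
    { carrier := {B | ∃ A : CP M t, ∀ q, Ch w β (Θ q) →
        eval (co β (Θ q)) B * f q = eval (co β (Θ q)) A}
      zero_mem' := ⟨0, fun q _ => by simp⟩
      add_mem' := by
        rintro B B' ⟨A, hA⟩ ⟨A', hA'⟩
        exact ⟨A + A', fun q hq => by rw [map_add, map_add, add_mul, hA q hq, hA' q hq]⟩
      smul_mem' := by
        rintro c B ⟨A, hA⟩
        exact ⟨c * A, fun q hq => by rw [smul_eq_mul, map_mul, map_mul, mul_assoc, hA q hq]⟩ }
  by_cases hK : K = ⊤
  · obtain ⟨A, hA⟩ : (1 : CP M t) ∈ K := (Ideal.eq_top_iff_one K).1 hK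
    exact ⟨A, fun q hq => by rw [← hA q hq, map_one, one_mul]⟩
  · exfalso
    obtain ⟨m, hm, hle⟩ := Ideal.exists_le_maximal K hK
    obtain ⟨y, rfl⟩ := isMaximal_iff_eq_vanishingIdeal_singleton.1 hm
    have hy : ∀ B ∈ K, eval y B = 0 := fun B hB =>
      (mem_vanishingIdeal_singleton_iff y B).1 (hle hB)
    obtain ⟨p, hp, rfl⟩ := der_closed g hβ (y := y) fun P hP =>
      hy P ⟨0, fun q hq => by rw [hP q hq, zero_mul, map_zero]⟩
    obtain ⟨A, B, h1, h2⟩ := h p hp
    exact h1 (hy B ⟨A, h2⟩)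

theorem sDer : SDer := by
  intro t a M w Θ g
  choose PP hP using fun (β : Cht M t) (i : Fin (t + a)) (x : CI M t) =>
    der_glue g β (fun q => fderiv ℂ (fun q => co β (Θ q) x) q (Pi.single i 1))
      fun p hp => der_loc g _ x hp
  refine ⟨PP, fun β p v x hp => ?_⟩
  rw [vf_eq]
  conv_lhs => rw [pi_eq_sum_univ' v, map_sum]
  exact sum_congr rfl fun i _ => by rw [map_smul, smul_eq_mul, hP β i x p hp]

end Pool.Agent.MP_c69980_ag.H43
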