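import Pool.Agent.MP_c69980_ag.H43.Spec9

/-!
The order of a polynomial in the coordinates and their increments.
-/

set_option autoImplicit false

namespace Pool.Agent.MP_c69980_ag.H43

open MvPolynomial Finset

lemma Ord_chain {F K A σ : Type} [Field F] [Field K] [CommRing A] [Algebra F A] [Algebra K A]
    [Fintype σ] (D : Derivation K A A) (hD : ∀ c : F, D (algebraMap F A c) = 0) (x : σ → A)
    (P : MvPolynomial σ F) : D (aeval x P) = ∑ o, D (x o) * aeval x (pderiv o P) := by
  classical
  induction P using MvPolynomial.induction_on with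
  | C c => simp [hD]
  | add p q hp hq => simp only [map_add, hp, hq, mul_add, sum_add_distrib]
  | mul_X p i hp =>
    simp only [map_mul, aeval_X, Derivation.leibniz, hp, smul_eq_mul, pderiv_X, map_add, mul_add,
      sum_add_distrib, mul_sum, Pi.single_apply]
    congr 1
    · simp [apply_ite, mul_comm]
    · exact sum_congr rfl fun _ _ => by ring

lemma Ord_deg {F σ : Type} [Field F] {P : MvPolynomial σ F} {i : σ} (h : pderiv i P ≠ 0) :
    (pderiv i P).totalDegree + 1 ≤ P.totalDegree := by
  obtain ⟨m, hm, e⟩ := exists_mem_eq_sup _ (support_nonempty.2 h)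
    fun s : σ →₀ ℕ => s.sum fun _ e => e
  have h1 : m + Finsupp.single i 1 ∈ P.support := by
    rw [mem_support_iff, coeff_pderiv] at hm
    exact mem_support_iff.2 (left_ne_zero_of_mul hm)
  have h2 := le_totalDegree h1
  rw [Finsupp.sum_add_index' (fun _ => rfl) fun _ _ _ => rfl, Finsupp.sum_single_index rfl] at h2
  rw [totalDegree, e]
  exact h2

lemma Ord_ren {F σ τ : Type} [Field F] [CharZero F] {P : MvPolynomial (σ ⊕ τ) F}
    (h : ∀ q, pderiv (Sum.inr q) P = 0) : ∃ Q : MvPolynomial σ F, rename Sum.inl Q = P := by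
  classical
  refine exists_rename_eq_of_vars_subset_range P _ Sum.inl_injective ?_
  rintro (l | q) hq
  · exact ⟨l, rfl⟩
  · exfalso
    obtain ⟨m, h1, h2⟩ := (mem_vars_iff_mem_support _).1 (mem_coe.1 hq)
    have h3 := congrArg (coeff (m - Finsupp.single (Sum.inr q) 1)) (h q)
    rw [coeff_pderiv, tsub_add_cancel_of_le (Finsupp.single_le_iff.2
      (Nat.one_le_iff_ne_zero.2 (Finsupp.mem_support_iff.1 h2))), coeff_zero] at h3
    exact mul_ne_zero (mem_support_iff.1 h1) (Nat.cast_add_one_ne_zero _) h3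

lemma Ord_der {K ι : Type} [Field K] {φ : PW ι K} {n : ℕ} (h : ((n + 1 : ℕ) : ℕ∞) ≤ φ.order)
    (i : ι) : (n : ℕ∞) ≤ (MvPowerSeries.pderiv K i φ).order := by
  refine MvPowerSeries.nat_le_order fun m hm => ?_
  rw [MvPowerSeries.coeff_pderiv, MvPowerSeries.coeff_of_lt_order (lt_of_lt_of_le ?_ h), zero_mul]
  rw [map_add, Finsupp.degree_single]
  exact_mod_cast Nat.succ_lt_succ hm

lemma Ord_sum {K ι κ : Type} [Field K] [Fintype κ] (a φ : κ → PW ι K) {n : ℕ}
    (h : ∀ l, (n : ℕ∞) ≤ (φ l).order) : (n : ℕ∞) ≤ (∑ l, a l * φ l).order := by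
  refine MvPowerSeries.nat_le_order fun m hm => ?_
  rw [map_sum]
  refine sum_eq_zero fun l _ => MvPowerSeries.coeff_of_lt_order ?_
  exact lt_of_lt_of_le (by exact_mod_cast hm)
    (((h l).trans le_add_self).trans MvPowerSeries.le_order_mul)

theorem sOrd : SOrd := by
  intro K _ _ F s s' d f T hf hB hT
  classical
  have : CharZero F := charZero_of_injective_algebraMap (algebraMap ℂ F).injective
  set x : Fin s ⊕ Fin s' × Fin s → PW (Fin s' × Fin s) K := Sum.elim
    (fun l => MvPowerSeries.C (f l))
    fun q : Fin s' × Fin s => T q.1 (f q.2) - MvPowerSeries.C (f q.2) with hx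
  set B : Matrix (Fin s) (Fin s) K := Matrix.of fun l l' => d l (f l') with hBdef
  have hc : ∀ c : F, algebraMap F (PW (Fin s' × Fin s) K) c = MvPowerSeries.C (c : K) :=
    fun c => by
      rw [IsScalarTower.algebraMap_apply F K, MvPowerSeries.algebraMap_apply]
      rfl
  have key : ∀ (P : MvPolynomial (Fin s ⊕ Fin s' × Fin s) F) j l',
      aeval x (pderiv (Sum.inr (j, l')) P) =
        ∑ l, T j (B⁻¹ l' l) * MvPowerSeries.pderiv K (j, l) (aeval x P) := by
    intro P j l'
    have h1 : (fun l => MvPowerSeries.pderiv K (j, l) (aeval x P)) =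
        (B.map (T j)).mulVec fun l => aeval x (pderiv (Sum.inr (j, l)) P) := by
      funext l
      rw [Ord_chain _ (fun c => by rw [hc, MvPowerSeries.pderiv_C]),
        Fintype.sum_sum_type, Fintype.sum_prod_type, sum_eq_single j]
      · simp [hx, (hT j).der, dj, Matrix.mulVec, dotProduct, hBdef]
      · intro j' _ hj
        simp [hx, (hT j').der, dj, hj.symm]
      · simp
    have h2 := congrFun (congrArg ((B⁻¹.map (T j)).mulVec) h1) l'
    rw [Matrix.mulVec_mulVec, ← Matrix.map_mul, Matrix.nonsing_inv_mul _ (Ne.isUnit hB),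
      Matrix.map_one _ (map_zero _) (map_one _), Matrix.one_mulVec] at h2
    exact h2.symm
  have main : ∀ (n : ℕ) (P : MvPolynomial (Fin s ⊕ Fin s' × Fin s) F), P ≠ 0 →
      P.totalDegree ≤ n → (aeval x P).order ≤ n := by
    intro n
    induction n using Nat.strong_induction_on with
    | _ n ih =>
    intro P hP hn
    by_cases h : ∀ q, pderiv (Sum.inr q) P = 0
    · obtain ⟨Q, rfl⟩ := Ord_ren h
      have e : aeval x (rename Sum.inl Q : MvPolynomial (Fin s ⊕ Fin s' × Fin s) F) =
          MvPowerSeries.C (aeval f Q) := by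
        rw [aeval_rename]
        clear h hP hn
        induction Q using MvPolynomial.induction_on with
        | C c => rw [aeval_C, aeval_C, hc]; rfl
        | add p q hp hq => simp only [map_add, hp, hq]
        | mul_X p i hp => rw [map_mul, map_mul, map_mul, hp, aeval_X, aeval_X]; rfl
      have q0 : aeval f Q ≠ 0 := fun e => hP (by
        rw [algebraicIndependent_iff.1 hf Q e, map_zero])
      refine le_trans (MvPowerSeries.order_le (d := 0) ?_) (by simp)
      rwa [e, MvPowerSeries.coeff_zero_C]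
    · push Not at h
      obtain ⟨⟨j, l'⟩, hq⟩ := h
      have h1 := (Ord_deg hq).trans hn
      obtain ⟨k, rfl⟩ : ∃ k, n = k + 1 := ⟨n - 1, by omega⟩
      have h2 := ih k (by omega) _ hq (by omega)
      by_contra h3
      have h4 : ((k + 1 + 1 : ℕ) : ℕ∞) ≤ (aeval x P).order := by
        rw [Nat.cast_succ]
        exact Order.add_one_le_of_lt (not_le.1 h3)
      rw [key] at h2
      have h5 := (Ord_sum (fun l => T j (B⁻¹ l' l)) _ fun l => Ord_der h4 (j, l)).trans h2
      exact absurd (by exact_mod_cast h5 : k + 1 ≤ k) (by omega)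
  exact fun P hP => main _ P hP le_rfl

end Pool.Agent.MP_c69980_ag.H43
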